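import Pool.Agent.Work.MP_1a989c_pr.Asym

set_option autoImplicit false

namespace Pool.Agent.Results.MP_1a989c_pr.Disproof

open Pool.Agent.DProcess

/-- Let `P n = condDisconnected n` be the probability that the final graph of the `3`-process on
`n` vertices, conditioned on being `3`-regular, is disconnected. Along even `n`, `n ^ δ * P n`
tends to infinity for every `δ > 0`. In particular `n ^ 2 * P n` has no finite limit. -/
theorem result :
    (∀ δ : ℝ, 0 < δ →
      Filter.Tendsto (fun m : ℕ => ((2 * m : ℕ) : ℝ) ^ δ * condDisconnected (2 * m))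
        Filter.atTop Filter.atTop) ∧
    ¬ ∃ c : ℝ,
      Filter.Tendsto (fun m : ℕ => ((2 * m : ℕ) : ℝ) ^ 2 * condDisconnected (2 * m))
        Filter.atTop (nhds c) :=
  ⟨tendsto_all, not_tendsto⟩

end Pool.Agent.Results.MP_1a989c_pr.Disproof
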